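import Mathlib

namespace Pool.Agent.Lib.MP_e757b3_an_h48

open Filter Topology Set

variable {n : ℕ}

theorem term_bound (c z w : ℝ) (hc : 0 ≤ c) (hz : 0 < z) (hw : 0 < w) :
    (c - z) * Real.log (z / w) ≤ c ^ 2 / w + w := by
  have hcw : 0 ≤ c ^ 2 / w := by positivity
  rcases le_total w z with h | h
  · have hl : 0 ≤ Real.log (z / w) := Real.log_nonneg ((one_le_div hw).2 h)
    rcases le_total z c with h2 | h2
    · have h3 : Real.log (z / w) ≤ c / w := by
        have h4 := Real.log_le_sub_one_of_pos (div_pos hz hw)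
        have h5 : z / w ≤ c / w := div_le_div_of_nonneg_right h2 hw.le
        linarith
      calc (c - z) * Real.log (z / w) ≤ c * Real.log (z / w) := by nlinarith
        _ ≤ c * (c / w) := mul_le_mul_of_nonneg_left h3 hc
        _ = c ^ 2 / w := by ring
        _ ≤ _ := by linarith
    · have : (c - z) * Real.log (z / w) ≤ 0 := by nlinarith
      linarith
  · have hl : Real.log (z / w) ≤ 0 := Real.log_nonpos (by positivity) ((div_le_one hw).2 h)
    have h3 : -Real.log (z / w) ≤ w / z - 1 := by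
      rw [← Real.log_inv, inv_div]
      exact Real.log_le_sub_one_of_pos (div_pos hw hz)
    have h4 : z * (w / z - 1) = w - z := by field_simp
    have h5 : z * (-Real.log (z / w)) ≤ w - z := by
      rw [← h4]; exact mul_le_mul_of_nonneg_left h3 hz.le
    have h6 : c * Real.log (z / w) ≤ 0 := by nlinarith
    nlinarith

/-- generalised relative entropy -/
noncomputable def kl (b z : ℝ) : ℝ := b * (Real.log b - Real.log z) - b + z

theorem kl_ge (b z : ℝ) (hb : 0 ≤ b) (hz : 0 < z) : (√b - √z) ^ 2 ≤ kl b z := by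
  unfold kl
  rcases hb.eq_or_lt with h | h
  · subst h
    simp [Real.sq_sqrt hz.le]
  · have hsb : 0 < √b := Real.sqrt_pos.2 h
    have hsz : 0 < √z := Real.sqrt_pos.2 hz
    have h1 : Real.log (√z / √b) ≤ √z / √b - 1 := Real.log_le_sub_one_of_pos (by positivity)
    have h2 : Real.log (√z / √b) = (Real.log z - Real.log b) / 2 := by
      rw [Real.log_div hsz.ne' hsb.ne', Real.log_sqrt hz.le, Real.log_sqrt h.le]
      ring
    have h3 : b * (√z / √b) = √b * √z := by
      have : b = √b * √b := (Real.mul_self_sqrt h.le).symm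
      nth_rewrite 1 [this]
      field_simp
    have h4 : b * (Real.log (√z / √b)) ≤ √b * √z - b := by
      calc b * (Real.log (√z / √b)) ≤ b * (√z / √b - 1) := mul_le_mul_of_nonneg_left h1 h.le
        _ = √b * √z - b := by rw [mul_sub, h3]; ring
    rw [h2] at h4
    have h5 : √b ^ 2 = b := Real.sq_sqrt h.le
    have h6 : √z ^ 2 = z := Real.sq_sqrt hz.le
    nlinarith

theorem kl_nonneg (b z : ℝ) (hb : 0 ≤ b) (hz : 0 < z) : 0 ≤ kl b z :=
  (sq_nonneg _).trans (kl_ge b z hb hz)

theorem kl_tendsto {U : Filter ℝ} (z : ℝ → ℝ) (a : ℝ) (hz : Tendsto z U (𝓝 a)) :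
    Tendsto (fun t => kl a (z t)) U (𝓝 0) := by
  unfold kl
  by_cases h : a = 0
  · subst h
    simpa using hz
  · have h1 : Tendsto (fun t => Real.log (z t)) U (𝓝 (Real.log a)) := hz.log h
    have h2 := (((tendsto_const_nhds (x := Real.log a)).sub h1).const_mul a)
    have h3 := (h2.sub (tendsto_const_nhds (x := a))).add hz
    simpa using h3

section

variable (V : Submodule ℝ (Fin n → ℝ)) (w x : Fin n → ℝ) (s : ℝ → Fin n → ℝ)

/-- the trajectory -/
noncomputable def zz (t : ℝ) (i : Fin n) : ℝ := w i * Real.exp (-t + s t i)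

/-- feasible points -/
def Feas (y : Fin n → ℝ) : Prop := (∀ i, 0 ≤ y i) ∧ ∀ v ∈ V, ∑ i, y i * v i = ∑ i, x i * v i

variable (hw : ∀ i, 0 < w i) (hs : ∀ t, 0 ≤ t → s t ∈ V)
  (hz : ∀ t, 0 ≤ t → ∀ v ∈ V, ∑ i, w i * Real.exp (-t + s t i) * v i =
        ∑ i, ((1 - Real.exp (-t)) * x i + Real.exp (-t) * w i) * v i)

include hw in
theorem zz_pos (t : ℝ) (i : Fin n) : 0 < zz w s t i := mul_pos (hw i) (Real.exp_pos _)

include hw in
theorem log_zz (t : ℝ) (i : Fin n) : Real.log (zz w s t i) = Real.log (w i) - t + s t i := by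
  unfold zz
  rw [Real.log_mul (hw i).ne' (Real.exp_pos _).ne', Real.log_exp]
  ring

include hw hs hz in
theorem sum_zz_le (y : Fin n → ℝ) (hy : Feas V x y) (t : ℝ) (ht : 0 < t) :
    ∑ i, zz w s t i ≤ ∑ i, y i + Real.exp (-t) * ∑ i, w i +
      (∑ i, ((y i + w i) ^ 2 / w i + w i)) / t := by
  have he : 0 < Real.exp (-t) := Real.exp_pos _
  have he1 : Real.exp (-t) ≤ 1 := by
    rw [← Real.exp_zero]; exact Real.exp_le_exp.2 (by linarith)
  set c : Fin n → ℝ := fun i => (1 - Real.exp (-t)) * y i + Real.exp (-t) * w i with hc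
  have hc0 : ∀ i, 0 ≤ c i := by
    intro i
    have := hy.1 i
    have := (hw i).le
    have h1 : 0 ≤ 1 - Real.exp (-t) := by linarith
    simp only [hc]
    positivity
  have hc1 : ∀ i, c i ≤ y i + Real.exp (-t) * w i := by
    intro i
    have h1 := hy.1 i
    simp only [hc]
    nlinarith
  have hc2 : ∀ i, c i ≤ y i + w i := by
    intro i
    have h1 := hc1 i
    have h2 := (hw i).le
    nlinarith
  have h1 : ∑ i, (c i - zz w s t i) * s t i = 0 := by
    have h2 := hz t ht.le (s t) (hs t ht.le)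
    have h3 := hy.2 (s t) (hs t ht.le)
    have h4 : ∑ i, c i * s t i = ∑ i, ((1 - Real.exp (-t)) * x i + Real.exp (-t) * w i) * s t i := by
      have e1 : ∑ i, c i * s t i = (1 - Real.exp (-t)) * ∑ i, y i * s t i +
          Real.exp (-t) * ∑ i, w i * s t i := by
        rw [Finset.mul_sum, Finset.mul_sum, ← Finset.sum_add_distrib]
        exact Finset.sum_congr rfl fun i _ => by simp only [hc]; ring
      have e2 : ∑ i, ((1 - Real.exp (-t)) * x i + Real.exp (-t) * w i) * s t i =
          (1 - Real.exp (-t)) * ∑ i, x i * s t i + Real.exp (-t) * ∑ i, w i * s t i := by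
        rw [Finset.mul_sum, Finset.mul_sum, ← Finset.sum_add_distrib]
        exact Finset.sum_congr rfl fun i _ => by ring
      rw [e1, e2, h3]
    have h5 : ∑ i, (c i - zz w s t i) * s t i = ∑ i, c i * s t i -
        ∑ i, w i * Real.exp (-t + s t i) * s t i := by
      rw [← Finset.sum_sub_distrib]
      exact Finset.sum_congr rfl fun i _ => by unfold zz; ring
    rw [h5, h4, h2]
    ring
  have h2 : t * ∑ i, (zz w s t i - c i) ≤ ∑ i, ((y i + w i) ^ 2 / w i + w i) := by
    have e1 : t * ∑ i, (zz w s t i - c i) =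
        ∑ i, (c i - zz w s t i) * Real.log (zz w s t i / w i) := by
      have e2 : ∑ i, (c i - zz w s t i) * Real.log (zz w s t i / w i) =
          ∑ i, (c i - zz w s t i) * s t i - t * ∑ i, (c i - zz w s t i) := by
        rw [Finset.mul_sum, ← Finset.sum_sub_distrib]
        refine Finset.sum_congr rfl fun i _ => ?_
        rw [Real.log_div (zz_pos w s hw t i).ne' (hw i).ne', log_zz w s hw]
        ring
      have e3 : ∑ i, (zz w s t i - c i) = - ∑ i, (c i - zz w s t i) := by
        rw [← Finset.sum_neg_distrib]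
        exact Finset.sum_congr rfl fun i _ => by ring
      rw [e2, h1, e3]
      ring
    rw [e1]
    refine Finset.sum_le_sum fun i _ => ?_
    refine (term_bound _ _ _ (hc0 i) (zz_pos w s hw t i) (hw i)).trans ?_
    have h3 : c i ^ 2 ≤ (y i + w i) ^ 2 := pow_le_pow_left₀ (hc0 i) (hc2 i) 2
    have h4 : c i ^ 2 / w i ≤ (y i + w i) ^ 2 / w i := div_le_div_of_nonneg_right h3 (hw i).le
    linarith
  have h3 : ∑ i, (zz w s t i - c i) ≤ (∑ i, ((y i + w i) ^ 2 / w i + w i)) / t := by
    rw [le_div_iff₀ ht, mul_comm]; exact h2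
  rw [Finset.sum_sub_distrib] at h3
  have h4 : ∑ i, c i ≤ ∑ i, y i + Real.exp (-t) * ∑ i, w i := by
    rw [Finset.mul_sum, ← Finset.sum_add_distrib]
    exact Finset.sum_le_sum fun i _ => hc1 i
  linarith

include hw hs hz in
theorem cluster_props (U : Filter ℝ) [U.NeBot] (hU : U ≤ atTop) (a : Fin n → ℝ)
    (ha : Tendsto (fun t => zz w s t) U (𝓝 a)) :
    Feas V x a ∧ ∀ y, Feas V x y → ∑ i, a i ≤ ∑ i, y i := by
  have hai : ∀ i, Tendsto (fun t => zz w s t i) U (𝓝 (a i)) := fun i =>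
    (tendsto_pi_nhds.1 ha) i
  have hexp : Tendsto (fun t : ℝ => Real.exp (-t)) U (𝓝 0) :=
    (Real.tendsto_exp_neg_atTop_nhds_zero).mono_left hU
  have hge : ∀ᶠ t in U, (0 : ℝ) < t := hU (eventually_gt_atTop 0)
  refine ⟨⟨fun i => ge_of_tendsto' (hai i) fun t => (zz_pos w s hw t i).le, ?_⟩, ?_⟩
  · intro v hv
    have h1 : Tendsto (fun t => ∑ i, zz w s t i * v i) U (𝓝 (∑ i, a i * v i)) :=
      tendsto_finsetSum _ fun i _ => (hai i).mul_const _
    have h2 : Tendsto (fun t : ℝ => ∑ i, ((1 - Real.exp (-t)) * x i + Real.exp (-t) * w i) * v i) U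
        (𝓝 (∑ i, ((1 - 0) * x i + 0 * w i) * v i)) :=
      tendsto_finsetSum _ fun i _ =>
        ((((tendsto_const_nhds.sub hexp).mul_const _).add (hexp.mul_const _)).mul_const _)
    have h3 : (fun t => ∑ i, zz w s t i * v i) =ᶠ[U]
        fun t : ℝ => ∑ i, ((1 - Real.exp (-t)) * x i + Real.exp (-t) * w i) * v i := by
      filter_upwards [hge] with t ht
      exact hz t ht.le v hv
    have h4 := tendsto_nhds_unique (h1.congr' h3) h2
    simpa using h4
  · intro y hy
    have h1 : Tendsto (fun t => ∑ i, zz w s t i) U (𝓝 (∑ i, a i)) :=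
      tendsto_finsetSum _ fun i _ => hai i
    have hinv : Tendsto (fun t : ℝ => (∑ i, ((y i + w i) ^ 2 / w i + w i)) / t) U (𝓝 0) :=
      (tendsto_const_nhds.div_atTop tendsto_id).mono_left hU
    have h2 : Tendsto (fun t : ℝ => ∑ i, y i + Real.exp (-t) * ∑ i, w i +
      (∑ i, ((y i + w i) ^ 2 / w i + w i)) / t) U (𝓝 (∑ i, y i + 0 * ∑ i, w i + 0)) :=
      (tendsto_const_nhds.add (hexp.mul_const _)).add hinv
    have h3 := le_of_tendsto_of_tendsto h1 h2 (by
      filter_upwards [hge] with t ht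
      exact sum_zz_le V w x s hw hs hz y hy t ht)
    simpa using h3

include hw hs in
theorem kl_diff (a b : Fin n → ℝ) (ha : Feas V x a) (hb : Feas V x b)
    (hab : ∑ i, a i = ∑ i, b i) (t : ℝ) (ht : 0 ≤ t) :
    ∑ i, kl (a i) (zz w s t i) - ∑ i, kl (b i) (zz w s t i) =
      ∑ i, (a i * Real.log (a i) - b i * Real.log (b i) - (a i - b i) * Real.log (w i)) := by
  have h1 : ∑ i, (a i - b i) * s t i = 0 := by
    have e1 := ha.2 (s t) (hs t ht)
    have e2 := hb.2 (s t) (hs t ht)
    have : ∑ i, (a i - b i) * s t i = ∑ i, a i * s t i - ∑ i, b i * s t i := by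
      rw [← Finset.sum_sub_distrib]; exact Finset.sum_congr rfl fun i _ => by ring
    rw [this, e1, e2, sub_self]
  have h2 : ∑ i, (a i - b i) = 0 := by rw [Finset.sum_sub_distrib, hab, sub_self]
  rw [← Finset.sum_sub_distrib]
  have h3 : ∀ i, kl (a i) (zz w s t i) - kl (b i) (zz w s t i) =
      (a i * Real.log (a i) - b i * Real.log (b i) - (a i - b i) * Real.log (w i)) +
      (t - 1) * (a i - b i) - (a i - b i) * s t i := by
    intro i
    unfold kl
    rw [log_zz w s hw]
    ring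
  rw [Finset.sum_congr rfl fun i _ => h3 i, Finset.sum_sub_distrib, Finset.sum_add_distrib,
    ← Finset.mul_sum, h2, h1]
  ring

include hw hs hz in
theorem cluster_unique (U W : Filter ℝ) [U.NeBot] [W.NeBot] (hU : U ≤ atTop) (hW : W ≤ atTop)
    (a b : Fin n → ℝ) (ha : Tendsto (fun t => zz w s t) U (𝓝 a))
    (hb : Tendsto (fun t => zz w s t) W (𝓝 b)) : b = a := by
  obtain ⟨hFa, hOa⟩ := cluster_props V w x s hw hs hz U hU a ha
  obtain ⟨hFb, hOb⟩ := cluster_props V w x s hw hs hz W hW b hb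
  have hab : ∑ i, a i = ∑ i, b i := le_antisymm (hOa b hFb) (hOb a hFa)
  have hai : ∀ i, Tendsto (fun t => zz w s t i) U (𝓝 (a i)) := fun i =>
    (tendsto_pi_nhds.1 ha) i
  have hbi : ∀ i, Tendsto (fun t => zz w s t i) W (𝓝 (b i)) := fun i =>
    (tendsto_pi_nhds.1 hb) i
  have hgU : ∀ᶠ t in U, (0 : ℝ) ≤ t := hU (eventually_ge_atTop 0)
  have hgW : ∀ᶠ t in W, (0 : ℝ) ≤ t := hW (eventually_ge_atTop 0)
  set H : ℝ := ∑ i, (a i * Real.log (a i) - b i * Real.log (b i) - (a i - b i) * Real.log (w i))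
  have hA : Tendsto (fun t => ∑ i, kl (a i) (zz w s t i)) U (𝓝 0) := by
    have := tendsto_finsetSum Finset.univ fun i (_ : i ∈ Finset.univ) =>
      kl_tendsto (fun t => zz w s t i) (a i) (hai i)
    simpa using this
  have hB : Tendsto (fun t => ∑ i, kl (b i) (zz w s t i)) W (𝓝 0) := by
    have := tendsto_finsetSum Finset.univ fun i (_ : i ∈ Finset.univ) =>
      kl_tendsto (fun t => zz w s t i) (b i) (hbi i)
    simpa using this
  have hAn : ∀ t, 0 ≤ ∑ i, kl (a i) (zz w s t i) := fun t =>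
    Finset.sum_nonneg fun i _ => kl_nonneg _ _ (hFa.1 i) (zz_pos w s hw t i)
  have hBn : ∀ t, 0 ≤ ∑ i, kl (b i) (zz w s t i) := fun t =>
    Finset.sum_nonneg fun i _ => kl_nonneg _ _ (hFb.1 i) (zz_pos w s hw t i)
  have hH1 : H ≤ 0 := by
    refine ge_of_tendsto hA ?_
    filter_upwards [hgU] with t ht
    have := kl_diff V w x s hw hs a b hFa hFb hab t ht
    have := hBn t
    linarith
  have hH2 : 0 ≤ H := by
    have : -H ≤ 0 := by
      refine ge_of_tendsto hB ?_
      filter_upwards [hgW] with t ht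
      have := kl_diff V w x s hw hs a b hFa hFb hab t ht
      have := hAn t
      linarith
    linarith
  have hH : H = 0 := le_antisymm hH1 hH2
  have hB' : Tendsto (fun t => ∑ i, kl (b i) (zz w s t i)) U (𝓝 0) := by
    refine hA.congr' ?_
    filter_upwards [hgU] with t ht
    have := kl_diff V w x s hw hs a b hFa hFb hab t ht
    linarith
  funext i
  have h1 : Tendsto (fun t => (√(b i) - √(zz w s t i)) ^ 2) U (𝓝 ((√(b i) - √(a i)) ^ 2)) :=
    ((tendsto_const_nhds.sub ((hai i).sqrt)).pow 2)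
  have h2 : (√(b i) - √(a i)) ^ 2 ≤ 0 := by
    refine le_of_tendsto_of_tendsto' h1 hB' fun t => ?_
    refine (kl_ge _ _ (hFb.1 i) (zz_pos w s hw t i)).trans ?_
    exact Finset.single_le_sum (f := fun i => kl (b i) (zz w s t i))
      (fun i _ => kl_nonneg _ _ (hFb.1 i) (zz_pos w s hw t i)) (Finset.mem_univ i)
  have h3 : √(b i) - √(a i) = 0 := by
    have := sq_nonneg (√(b i) - √(a i))
    exact pow_eq_zero_iff (two_ne_zero) |>.1 (le_antisymm h2 this)
  have h4 : √(b i) = √(a i) := sub_eq_zero.1 h3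
  rw [← Real.sq_sqrt (hFb.1 i), h4, Real.sq_sqrt (hFa.1 i)]

include hw hs hz in
/-- convergence of the flow to an optimal point -/
theorem flow_converges (hx : ∀ i, 0 ≤ x i) :
    ∃ a : Fin n → ℝ, Tendsto (fun t => zz w s t) atTop (𝓝 a) ∧ Feas V x a ∧
      ∀ y, Feas V x y → ∑ i, a i ≤ ∑ i, y i := by
  have hFx : Feas V x x := ⟨hx, fun _ _ => rfl⟩
  set R : ℝ := ∑ i, x i + ∑ i, w i + ∑ i, ((x i + w i) ^ 2 / w i + w i) with hR
  set K : Set (Fin n → ℝ) := Icc 0 (fun _ => R) with hK
  have hKc : IsCompact K := isCompact_Icc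
  have hKev : ∀ᶠ t in (atTop : Filter ℝ), zz w s t ∈ K := by
    filter_upwards [eventually_ge_atTop (1 : ℝ)] with t ht
    refine ⟨fun i => (zz_pos w s hw t i).le, fun i => ?_⟩
    have h1 := sum_zz_le V w x s hw hs hz x hFx t (by linarith)
    have h2 : zz w s t i ≤ ∑ i, zz w s t i :=
      Finset.single_le_sum (f := fun i => zz w s t i) (fun i _ => (zz_pos w s hw t i).le)
        (Finset.mem_univ i)
    have h3 : Real.exp (-t) ≤ 1 := by
      rw [← Real.exp_zero]; exact Real.exp_le_exp.2 (by linarith)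
    have h4 : 0 ≤ ∑ i, w i := Finset.sum_nonneg fun i _ => (hw i).le
    have h5 : 0 ≤ ∑ i, ((x i + w i) ^ 2 / w i + w i) := Finset.sum_nonneg fun i _ => by
      have := (hw i)
      positivity
    have h6 : (∑ i, ((x i + w i) ^ 2 / w i + w i)) / t ≤ ∑ i, ((x i + w i) ^ 2 / w i + w i) :=
      div_le_self h5 ht
    have h7 : Real.exp (-t) * ∑ i, w i ≤ ∑ i, w i := mul_le_of_le_one_left h4 h3
    simp only [hR]
    linarith
  set U : Ultrafilter ℝ := Ultrafilter.of (atTop : Filter ℝ) with hU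
  have hUle : (U : Filter ℝ) ≤ atTop := Ultrafilter.of_le _
  obtain ⟨a, haK, ha⟩ := hKc.ultrafilter_le_nhds (U.map (fun t => zz w s t)) (by
    rw [Ultrafilter.coe_map, le_principal_iff, Filter.mem_map]
    exact hUle hKev)
  have haT : Tendsto (fun t => zz w s t) U (𝓝 a) := ha
  obtain ⟨hFa, hOa⟩ := cluster_props V w x s hw hs hz U hUle a haT
  refine ⟨a, ?_, hFa, hOa⟩
  refine hKc.tendsto_nhds_of_unique_mapClusterPt hKev fun b _ hb => ?_
  obtain ⟨W, hW1, hW2⟩ := mapClusterPt_iff_ultrafilter.1 hb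
  exact cluster_unique V w x s hw hs hz U W hUle hW1 a b haT hW2

end

end Pool.Agent.Lib.MP_e757b3_an_h48
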