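import Mathlib

namespace Pool.Agent.Lib.MP_e757b3_an_h48

open Matrix

variable {n m : ℕ}

/-- spectral theorem, real form -/
theorem spectral_real (N : Matrix (Fin n) (Fin n) ℝ) (hN : N.IsHermitian) :
    ∃ (U : Matrix (Fin n) (Fin n) ℝ) (l : Fin n → ℝ), Uᵀ * U = 1 ∧ N = U * diagonal l * Uᵀ ∧
      l = hN.eigenvalues := by
  refine ⟨(hN.eigenvectorUnitary : Matrix (Fin n) (Fin n) ℝ), hN.eigenvalues, ?_, ?_, rfl⟩
  · have := (Matrix.mem_unitaryGroup_iff').1 hN.eigenvectorUnitary.2
    simpa [Matrix.star_eq_conjTranspose] using this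
  · have := hN.spectral_theorem
    rw [Unitary.conjStarAlgAut_apply] at this
    simpa [Matrix.star_eq_conjTranspose] using this

theorem exists_isPinv (N : Matrix (Fin m) (Fin m) ℝ) (hN : N.IsHermitian) :
    ∃ P : Matrix (Fin m) (Fin m) ℝ,
      N * P * N = N ∧ P * N * P = P ∧ (N * P)ᵀ = N * P ∧ (P * N)ᵀ = P * N := by
  obtain ⟨U, l, hU, hNU, -⟩ := spectral_real N hN
  have key : ∀ a b : Fin m → ℝ, U * diagonal a * Uᵀ * (U * diagonal b * Uᵀ) =
      U * diagonal (fun i => a i * b i) * Uᵀ := by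
    intro a b
    calc U * diagonal a * Uᵀ * (U * diagonal b * Uᵀ)
        = U * (diagonal a * (Uᵀ * U) * diagonal b) * Uᵀ := by simp only [Matrix.mul_assoc]
      _ = _ := by rw [hU, Matrix.mul_one, diagonal_mul_diagonal]
  have ht : ∀ a : Fin m → ℝ, (U * diagonal a * Uᵀ)ᵀ = U * diagonal a * Uᵀ := by
    intro a
    simp [Matrix.transpose_mul, Matrix.mul_assoc]
  refine ⟨U * diagonal (fun i => (l i)⁻¹) * Uᵀ, ?_⟩
  rw [hNU, key, key, key, key, ht, ht]
  refine ⟨?_, ?_, rfl, rfl⟩
  · congr 3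
    funext i
    by_cases h : l i = 0
    · simp [h]
    · field_simp
  · congr 3
    funext i
    by_cases h : l i = 0
    · simp [h]
    · field_simp

theorem exists_normalise (C : Matrix (Fin n) (Fin n) ℝ) (hC : C.PosDef) :
    ∃ S : Matrix (Fin n) (Fin n) ℝ, Sᵀ * C * S = 1 := by
  obtain ⟨U, l, hU, hCU, hl⟩ := spectral_real C hC.isHermitian
  have hlpos : ∀ i, 0 < l i := by
    intro i
    rw [hl]
    exact hC.eigenvalues_pos i
  refine ⟨U * diagonal (fun i => 1 / √(l i)), ?_⟩
  rw [Matrix.transpose_mul, diagonal_transpose, hCU]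
  calc diagonal (fun i => 1 / √(l i)) * Uᵀ * (U * diagonal l * Uᵀ) *
        (U * diagonal fun i => 1 / √(l i))
      = diagonal (fun i => 1 / √(l i)) * (Uᵀ * U) * diagonal l * (Uᵀ * U) *
        diagonal (fun i => 1 / √(l i)) := by simp only [Matrix.mul_assoc]
    _ = 1 := by
      rw [hU, Matrix.mul_one, Matrix.mul_one, diagonal_mul_diagonal, diagonal_mul_diagonal,
        ← diagonal_one]
      congr 1
      funext i
      have h1 : √(l i) * √(l i) = l i := Real.mul_self_sqrt (hlpos i).le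
      have h2 : 0 < √(l i) := Real.sqrt_pos.2 (hlpos i)
      field_simp
      rw [pow_two, h1]

theorem exists_simultaneous (A : Fin m → Matrix (Fin n) (Fin n) ℝ) (hA : ∀ l, (A l).IsHermitian)
    (hcomm : ∀ k l, A k * A l = A l * A k) :
    ∃ (U : Matrix (Fin n) (Fin n) ℝ) (a : Fin m → Fin n → ℝ), Uᵀ * U = 1 ∧
      ∀ l, Uᵀ * A l * U = diagonal (a l) := by
  classical
  set T : Fin m → Module.End ℝ (EuclideanSpace ℝ (Fin n)) := fun l => toEuclideanLin (A l) with hT
  have hTs : ∀ l, (T l).IsSymmetric := fun l => isSymmetric_toEuclideanLin_iff.2 (hA l)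
  have hTc : Pairwise (Function.onFun Commute T) := by
    intro k l _
    show T k * T l = T l * T k
    refine LinearMap.ext fun v => ?_
    simp only [hT, Module.End.mul_apply, Matrix.toEuclideanLin, Matrix.toLpLin_apply]
    rw [Matrix.mulVec_mulVec, Matrix.mulVec_mulVec, hcomm k l]
  set W : (Fin m → ℝ) → Submodule ℝ (EuclideanSpace ℝ (Fin n)) :=
    fun α => ⨅ j, (T j).eigenspace (α j) with hW
  have hInt : DirectSum.IsInternal W :=
    LinearMap.IsSymmetric.directSum_isInternal_of_pairwise_commute hTs hTc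
  have hOrth : OrthogonalFamily ℝ (fun γ => ↥(W γ)) fun γ => (W γ).subtypeₗᵢ :=
    LinearMap.IsSymmetric.orthogonalFamily_iInf_eigenspaces hTs
  have hfin : {α | W α ≠ ⊥}.Finite :=
    WellFoundedGT.finite_ne_bot_of_iSupIndep hInt.submodule_iSupIndep
  have : Fintype {α // W α ≠ ⊥} := hfin.fintype
  have hInt' : DirectSum.IsInternal fun i : {α // W α ≠ ⊥} => W i :=
    DirectSum.isInternal_ne_bot_iff.2 hInt
  have hOrth' : OrthogonalFamily ℝ (fun i : {α // W α ≠ ⊥} => ↥(W i))
      fun i => (W i).subtypeₗᵢ := hOrth.comp Subtype.val_injective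
  have hn : Module.finrank ℝ (EuclideanSpace ℝ (Fin n)) = n := finrank_euclideanSpace_fin
  set b := hInt'.subordinateOrthonormalBasis hn hOrth' with hb
  set idx : Fin n → (Fin m → ℝ) := fun a =>
    (DirectSum.IsInternal.subordinateOrthonormalBasisIndex hn hInt' a hOrth').1 with hidx
  have hmem : ∀ j, b j ∈ W (idx j) := fun j =>
    hInt'.subordinateOrthonormalBasis_subordinate hn j hOrth'
  have heig : ∀ l j, A l *ᵥ (b j).ofLp = idx j l • (b j).ofLp := by
    intro l j
    have h1 := (Submodule.mem_iInf _).1 (hmem j) l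
    rw [Module.End.mem_eigenspace_iff] at h1
    simp only [hT, Matrix.toEuclideanLin, Matrix.toLpLin_apply] at h1
    have h2 := congrArg WithLp.ofLp h1
    simpa using h2
  refine ⟨Matrix.of fun i j => (b j) i, fun l j => idx j l, ?_, ?_⟩
  · ext i j
    have h1 := b.orthonormal
    rw [orthonormal_iff_ite] at h1
    have h2 := h1 i j
    rw [PiLp.inner_apply] at h2
    simp only [Matrix.mul_apply, Matrix.transpose_apply, Matrix.of_apply, Matrix.one_apply]
    rw [← h2]
    refine Finset.sum_congr rfl fun k _ => ?_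
    simp [mul_comm]
  · intro l
    have h1 : A l * (Matrix.of fun i j => (b j) i) =
        (Matrix.of fun i j => (b j) i) * diagonal (fun j => idx j l) := by
      ext i j
      rw [Matrix.mul_diagonal]
      have h2 := congrFun (heig l j) i
      simp only [Matrix.mulVec, dotProduct, Pi.smul_apply, smul_eq_mul] at h2
      simp only [Matrix.mul_apply, Matrix.of_apply]
      rw [h2, mul_comm]
    rw [Matrix.mul_assoc, h1, ← Matrix.mul_assoc]
    have h3 : (Matrix.of fun i j => (b j) i : Matrix (Fin n) (Fin n) ℝ)ᵀ *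
        (Matrix.of fun i j => (b j) i) = 1 := by
      ext i j
      have h1 := b.orthonormal
      rw [orthonormal_iff_ite] at h1
      have h2 := h1 i j
      rw [PiLp.inner_apply] at h2
      simp only [Matrix.mul_apply, Matrix.transpose_apply, Matrix.of_apply, Matrix.one_apply]
      rw [← h2]
      refine Finset.sum_congr rfl fun k _ => ?_
      simp [mul_comm]
    rw [h3, Matrix.one_mul]

/-- Simultaneous reduction of `C` to the identity and of the `A l` to diagonal matrices. -/
theorem exists_reduction (C : Matrix (Fin n) (Fin n) ℝ) (hC : C.PosDef)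
    (A : Fin m → Matrix (Fin n) (Fin n) ℝ) (hA : ∀ l, (A l).IsSymm)
    (hcomm : ∀ k l, A k * C⁻¹ * A l = A l * C⁻¹ * A k) :
    ∃ (R : Matrix (Fin n) (Fin n) ℝ) (a : Fin m → Fin n → ℝ), Rᵀ * C * R = 1 ∧ C⁻¹ = R * Rᵀ ∧
      ∀ l, Rᵀ * A l * R = diagonal (a l) := by
  obtain ⟨S, hS⟩ := exists_normalise C hC
  have hCinv : ∀ Q : Matrix (Fin n) (Fin n) ℝ, Qᵀ * C * Q = 1 → C⁻¹ = Q * Qᵀ := by
    intro Q hQ
    have h1 : Q * (Qᵀ * C) = 1 := mul_eq_one_comm.1 hQ
    apply Matrix.inv_eq_left_inv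
    rw [Matrix.mul_assoc]
    exact h1
  have hSS := hCinv S hS
  obtain ⟨U, a, hU, ha⟩ := exists_simultaneous (fun l => Sᵀ * A l * S) (fun l => by
      rw [Matrix.IsHermitian, Matrix.conjTranspose_eq_transpose_of_trivial, Matrix.transpose_mul,
        Matrix.transpose_mul, Matrix.transpose_transpose, (hA l).eq, Matrix.mul_assoc])
    (fun k l => by
      have h1 := hcomm k l
      rw [hSS] at h1
      calc Sᵀ * A k * S * (Sᵀ * A l * S) = Sᵀ * (A k * (S * Sᵀ) * A l) * S := by
            simp only [Matrix.mul_assoc]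
        _ = Sᵀ * (A l * (S * Sᵀ) * A k) * S := by rw [h1]
        _ = _ := by simp only [Matrix.mul_assoc])
  have hR : (S * U)ᵀ * C * (S * U) = 1 := by
    rw [Matrix.transpose_mul]
    calc Uᵀ * Sᵀ * C * (S * U) = Uᵀ * (Sᵀ * C * S) * U := by simp only [Matrix.mul_assoc]
      _ = 1 := by rw [hS, Matrix.mul_one, hU]
  refine ⟨S * U, a, hR, hCinv _ hR, fun l => ?_⟩
  rw [← ha l, Matrix.transpose_mul]
  simp only [Matrix.mul_assoc]

end Pool.Agent.Lib.MP_e757b3_an_h48
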