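import Mathlib

namespace Pool.Agent.Lib.MP_e757b3_an_h48

open Filter Topology Set

variable {n d : ℕ}

/-- The map `η ↦ Bᵀ (w * exp (B η))`. -/
noncomputable def gradF (w : Fin n → ℝ) (B : Matrix (Fin n) (Fin d) ℝ) (η : Fin d → ℝ) :
    Fin d → ℝ :=
  fun j => ∑ i, w i * Real.exp ((B.mulVec η) i) * B i j

theorem exp_lower (w c u : ℝ) (hw : 0 < w) (hc : 0 < c) :
    c * |u| - 2 * c ^ 2 / w ≤ w * Real.exp u - c * u := by
  rcases le_total 0 u with hu | hu
  · rw [abs_of_nonneg hu]
    have h1 : u ^ 2 / 2 ≤ Real.exp u := by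
      have := Real.quadratic_le_exp_of_nonneg hu
      nlinarith
    have h2 : 0 ≤ 2 * c ^ 2 / w - 2 * c * u + w * u ^ 2 / 2 := by
      have : 2 * c ^ 2 / w - 2 * c * u + w * u ^ 2 / 2 = (2 * c - w * u) ^ 2 / (2 * w) := by
        field_simp
        ring
      rw [this]
      positivity
    have h3 : w * (u ^ 2 / 2) ≤ w * Real.exp u := mul_le_mul_of_nonneg_left h1 hw.le
    nlinarith
  · rw [abs_of_nonpos hu]
    have h1 : 0 ≤ w * Real.exp u := by positivity
    have h2 : 0 ≤ 2 * c ^ 2 / w := by positivity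
    nlinarith

theorem exists_pos_lower (c : Fin n → ℝ) (hc : ∀ i, 0 < c i) : ∃ a, 0 < a ∧ ∀ i, a ≤ c i := by
  rcases isEmpty_or_nonempty (Fin n) with h | h
  · exact ⟨1, one_pos, fun i => (h.false i).elim⟩
  · obtain ⟨i, hi⟩ := Finite.exists_min c
    exact ⟨c i, hc i, hi⟩

/-- existence of a critical point -/
theorem exists_gradF_eq (w c : Fin n → ℝ) (hw : ∀ i, 0 < w i) (hc : ∀ i, 0 < c i)
    (B : Matrix (Fin n) (Fin d) ℝ) (hB : Function.Injective B.mulVec) :
    ∃ η, gradF w B η = fun j => ∑ i, c i * B i j := by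
  obtain ⟨a, ha, hac⟩ := exists_pos_lower c hc
  set f : (Fin d → ℝ) → ℝ := fun η =>
    ∑ i, (w i * Real.exp ((B.mulVec η) i) - c i * (B.mulVec η) i) with hf
  have hcontB : Continuous fun η : Fin d → ℝ => B.mulVec η :=
    (B.mulVecLin).continuous_of_finiteDimensional
  have hcont : Continuous f := by
    refine continuous_finsetSum _ fun i _ => ?_
    have hi : Continuous fun η : Fin d → ℝ => (B.mulVec η) i := (continuous_apply i).comp hcontB
    exact (continuous_const.mul (Real.continuous_exp.comp hi)).sub (continuous_const.mul hi)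
  have hlow : ∀ η, a * ‖B.mulVec η‖ - ∑ i, 2 * (c i) ^ 2 / w i ≤ f η := by
    intro η
    have h1 : ‖B.mulVec η‖ ≤ ∑ i, |(B.mulVec η) i| := by
      refine (pi_norm_le_iff_of_nonneg (Finset.sum_nonneg fun i _ => abs_nonneg _)).2 fun i => ?_
      rw [Real.norm_eq_abs]
      exact Finset.single_le_sum (f := fun i => |(B.mulVec η) i|) (fun i _ => abs_nonneg _)
        (Finset.mem_univ i)
    have h2 : a * ‖B.mulVec η‖ ≤ ∑ i, c i * |(B.mulVec η) i| := by
      calc a * ‖B.mulVec η‖ ≤ a * ∑ i, |(B.mulVec η) i| := mul_le_mul_of_nonneg_left h1 ha.le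
        _ = ∑ i, a * |(B.mulVec η) i| := Finset.mul_sum _ _ _
        _ ≤ _ := Finset.sum_le_sum fun i _ => mul_le_mul_of_nonneg_right (hac i) (abs_nonneg _)
    calc a * ‖B.mulVec η‖ - ∑ i, 2 * (c i) ^ 2 / w i
        ≤ ∑ i, c i * |(B.mulVec η) i| - ∑ i, 2 * (c i) ^ 2 / w i := by linarith
      _ = ∑ i, (c i * |(B.mulVec η) i| - 2 * (c i) ^ 2 / w i) := by
          rw [Finset.sum_sub_distrib]
      _ ≤ f η := Finset.sum_le_sum fun i _ => exp_lower _ _ _ (hw i) (hc i)
  have hlim : Tendsto f (cocompact _) atTop := by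
    have hce : Topology.IsClosedEmbedding (B.mulVecLin : (Fin d → ℝ) → (Fin n → ℝ)) :=
      LinearMap.isClosedEmbedding_of_injective (LinearMap.ker_eq_bot.2 hB)
    have h1 : Tendsto (fun η : Fin d → ℝ => ‖B.mulVec η‖) (cocompact _) atTop :=
      (tendsto_norm_cocompact_atTop (E := Fin n → ℝ)).comp hce.tendsto_cocompact
    have h2 : Tendsto (fun η : Fin d → ℝ => a * ‖B.mulVec η‖ - ∑ i, 2 * (c i) ^ 2 / w i)
        (cocompact _) atTop :=
      tendsto_atTop_add_const_right _ _ (h1.const_mul_atTop ha)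
    exact tendsto_atTop_mono hlow h2
  obtain ⟨η, hη⟩ := hcont.exists_forall_le hlim
  refine ⟨η, ?_⟩
  funext j
  have hd : HasDerivAt (fun r : ℝ => f (η + r • (Pi.single j 1 : Fin d → ℝ)))
      (∑ i, (w i * Real.exp ((B.mulVec η) i) * B i j - c i * B i j)) 0 := by
    have hexp : ∀ r : ℝ, f (η + r • (Pi.single j 1 : Fin d → ℝ)) =
        ∑ i, (w i * Real.exp ((B.mulVec η) i + r * B i j) - c i * ((B.mulVec η) i + r * B i j)) := by
      intro r
      simp only [hf]
      refine Finset.sum_congr rfl fun i _ => ?_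
      have : (B.mulVec (η + r • (Pi.single j 1 : Fin d → ℝ))) i = (B.mulVec η) i + r * B i j := by
        rw [Matrix.mulVec_add, Matrix.mulVec_smul]
        simp [Matrix.col]
      rw [this]
    have : (fun r : ℝ => f (η + r • (Pi.single j 1 : Fin d → ℝ))) = fun r : ℝ =>
        ∑ i, (w i * Real.exp ((B.mulVec η) i + r * B i j) - c i * ((B.mulVec η) i + r * B i j)) :=
      funext hexp
    rw [this]
    refine HasDerivAt.fun_sum fun i _ => ?_
    have h1 : HasDerivAt (fun r : ℝ => (B.mulVec η) i + r * B i j) (B i j) 0 := by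
      simpa using ((hasDerivAt_id (0 : ℝ)).mul_const (B i j)).const_add ((B.mulVec η) i)
    have h2 := (h1.exp.const_mul (w i)).sub (h1.const_mul (c i))
    have h3 : w i * Real.exp ((B.mulVec η) i) * B i j - c i * B i j =
        w i * (Real.exp ((B.mulVec η) i + 0 * B i j) * B i j) - c i * B i j := by
      rw [zero_mul, add_zero]; ring
    rw [h3]
    exact h2
  have hmin : IsLocalMin (fun r : ℝ => f (η + r • (Pi.single j 1 : Fin d → ℝ))) 0 := by
    refine Filter.Eventually.of_forall fun r => ?_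
    simpa using hη _
  have h0 := hmin.hasDerivAt_eq_zero hd
  rw [Finset.sum_sub_distrib] at h0
  simp only [gradF]
  linarith

theorem mul_exp_sub_nonneg (w u v : ℝ) (hw : 0 < w) :
    0 ≤ w * (Real.exp u - Real.exp v) * (u - v) := by
  rcases le_total u v with h | h
  · have := Real.exp_le_exp.2 h
    have h1 : w * (Real.exp u - Real.exp v) ≤ 0 := by nlinarith
    nlinarith
  · have := Real.exp_le_exp.2 h
    have h1 : 0 ≤ w * (Real.exp u - Real.exp v) := by
      apply mul_nonneg hw.le; linarith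
    apply mul_nonneg h1; linarith

theorem gradF_injective (w : Fin n → ℝ) (hw : ∀ i, 0 < w i)
    (B : Matrix (Fin n) (Fin d) ℝ) (hB : Function.Injective B.mulVec) :
    Function.Injective (gradF w B) := by
  intro η ζ h
  have h1 : ∑ i, w i * (Real.exp ((B.mulVec η) i) - Real.exp ((B.mulVec ζ) i)) *
      ((B.mulVec η) i - (B.mulVec ζ) i) = 0 := by
    have h2 : ∀ i, (B.mulVec η) i - (B.mulVec ζ) i = ∑ j, B i j * (η j - ζ j) := by
      intro i
      simp only [Matrix.mulVec, dotProduct]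
      rw [← Finset.sum_sub_distrib]
      exact Finset.sum_congr rfl fun j _ => by ring
    calc ∑ i, w i * (Real.exp ((B.mulVec η) i) - Real.exp ((B.mulVec ζ) i)) *
        ((B.mulVec η) i - (B.mulVec ζ) i)
        = ∑ i, ∑ j, w i * (Real.exp ((B.mulVec η) i) - Real.exp ((B.mulVec ζ) i)) *
          (B i j * (η j - ζ j)) := by
          refine Finset.sum_congr rfl fun i _ => ?_
          rw [h2 i, Finset.mul_sum]
      _ = ∑ j, ∑ i, w i * (Real.exp ((B.mulVec η) i) - Real.exp ((B.mulVec ζ) i)) *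
          (B i j * (η j - ζ j)) := Finset.sum_comm
      _ = ∑ j, (gradF w B η j - gradF w B ζ j) * (η j - ζ j) := by
          refine Finset.sum_congr rfl fun j _ => ?_
          simp only [gradF]
          rw [← Finset.sum_sub_distrib, Finset.sum_mul]
          exact Finset.sum_congr rfl fun i _ => by ring
      _ = 0 := by simp [h]
  have h3 : ∀ i, w i * (Real.exp ((B.mulVec η) i) - Real.exp ((B.mulVec ζ) i)) *
      ((B.mulVec η) i - (B.mulVec ζ) i) = 0 := by
    intro i
    exact (Finset.sum_eq_zero_iff_of_nonneg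
      (fun i _ => mul_exp_sub_nonneg _ _ _ (hw i))).1 h1 i (Finset.mem_univ i)
  apply hB
  funext i
  rcases mul_eq_zero.1 (h3 i) with h4 | h4
  · have h5 : Real.exp ((B.mulVec η) i) - Real.exp ((B.mulVec ζ) i) = 0 := by
      rcases mul_eq_zero.1 h4 with h6 | h6
      · exact absurd h6 (hw i).ne'
      · exact h6
    exact Real.exp_injective (sub_eq_zero.1 h5)
  · exact sub_eq_zero.1 h4

/-- the derivative of `gradF` -/
noncomputable def gradJ (w : Fin n → ℝ) (B : Matrix (Fin n) (Fin d) ℝ) (η : Fin d → ℝ) :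
    (Fin d → ℝ) →L[ℝ] (Fin d → ℝ) :=
  ContinuousLinearMap.pi fun j => ∑ i, (w i * Real.exp ((B.mulVec η) i) * B i j) •
    ((ContinuousLinearMap.proj i : (Fin n → ℝ) →L[ℝ] ℝ).comp
      (LinearMap.toContinuousLinearMap B.mulVecLin))

theorem gradJ_apply (w : Fin n → ℝ) (B : Matrix (Fin n) (Fin d) ℝ) (η v : Fin d → ℝ) (j : Fin d) :
    gradJ w B η v j = ∑ i, (w i * Real.exp ((B.mulVec η) i) * B i j) * (B.mulVec v) i := by
  simp [gradJ]

theorem hasStrictFDerivAt_gradF (w : Fin n → ℝ) (B : Matrix (Fin n) (Fin d) ℝ) (η : Fin d → ℝ) :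
    HasStrictFDerivAt (gradF w B) (gradJ w B η) η := by
  rw [hasStrictFDerivAt_pi']
  intro j
  have : (ContinuousLinearMap.proj j : (Fin d → ℝ) →L[ℝ] ℝ).comp (gradJ w B η) =
      ∑ i, (w i * Real.exp ((B.mulVec η) i) * B i j) •
    ((ContinuousLinearMap.proj i : (Fin n → ℝ) →L[ℝ] ℝ).comp
      (LinearMap.toContinuousLinearMap B.mulVecLin)) := by
    ext v
    simp [gradJ]
  rw [this]
  simp only [gradF]
  refine HasStrictFDerivAt.fun_sum fun i _ => ?_
  have h1 : HasStrictFDerivAt (fun η : Fin d → ℝ => (B.mulVec η) i)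
      ((ContinuousLinearMap.proj i : (Fin n → ℝ) →L[ℝ] ℝ).comp
      (LinearMap.toContinuousLinearMap B.mulVecLin)) η :=
    ((ContinuousLinearMap.proj i : (Fin n → ℝ) →L[ℝ] ℝ).comp
      (LinearMap.toContinuousLinearMap B.mulVecLin)).hasStrictFDerivAt
  have h2 := (h1.exp.const_mul (w i)).mul_const (B i j)
  have h3 : (w i * Real.exp ((B.mulVec η) i) * B i j) •
      ((ContinuousLinearMap.proj i : (Fin n → ℝ) →L[ℝ] ℝ).comp
      (LinearMap.toContinuousLinearMap B.mulVecLin)) = B i j • w i • Real.exp ((B.mulVec η) i) •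
      ((ContinuousLinearMap.proj i : (Fin n → ℝ) →L[ℝ] ℝ).comp
      (LinearMap.toContinuousLinearMap B.mulVecLin)) := by
    rw [smul_smul, smul_smul]
    congr 1
    ring
  rw [h3]
  exact h2

theorem gradJ_injective (w : Fin n → ℝ) (hw : ∀ i, 0 < w i)
    (B : Matrix (Fin n) (Fin d) ℝ) (hB : Function.Injective B.mulVec) (η : Fin d → ℝ) :
    Function.Injective (gradJ w B η) := by
  rw [injective_iff_map_eq_zero]
  intro v hv
  have h1 : ∑ i, w i * Real.exp ((B.mulVec η) i) * (B.mulVec v) i ^ 2 = 0 := by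
    calc ∑ i, w i * Real.exp ((B.mulVec η) i) * (B.mulVec v) i ^ 2
        = ∑ i, ∑ j, (w i * Real.exp ((B.mulVec η) i) * B i j) * (B.mulVec v) i * v j := by
          refine Finset.sum_congr rfl fun i _ => ?_
          have : (B.mulVec v) i = ∑ j, B i j * v j := rfl
          rw [pow_two]
          nth_rewrite 2 [this]
          rw [← mul_assoc, Finset.mul_sum]
          exact Finset.sum_congr rfl fun j _ => by ring
      _ = ∑ j, ∑ i, (w i * Real.exp ((B.mulVec η) i) * B i j) * (B.mulVec v) i * v j :=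
          Finset.sum_comm
      _ = ∑ j, gradJ w B η v j * v j := by
          refine Finset.sum_congr rfl fun j _ => ?_
          rw [gradJ_apply, Finset.sum_mul]
      _ = 0 := by simp [hv]
  have h2 : ∀ i, w i * Real.exp ((B.mulVec η) i) * (B.mulVec v) i ^ 2 = 0 := by
    intro i
    refine (Finset.sum_eq_zero_iff_of_nonneg (fun i _ => ?_)).1 h1 i (Finset.mem_univ i)
    have := hw i
    positivity
  have h3 : B.mulVec v = B.mulVec 0 := by
    funext i
    rw [Matrix.mulVec_zero]
    have := h2 i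
    have hpos : 0 < w i * Real.exp ((B.mulVec η) i) := mul_pos (hw i) (Real.exp_pos _)
    rcases mul_eq_zero.1 this with h | h
    · exact absurd h hpos.ne'
    · simpa using h
  exact hB h3

/-- a differentiable solution curve -/
theorem exists_curve (w x : Fin n → ℝ) (hw : ∀ i, 0 < w i) (hx : ∀ i, 0 ≤ x i)
    (B : Matrix (Fin n) (Fin d) ℝ) (hB : Function.Injective B.mulVec) :
    ∃ η η' : ℝ → Fin d → ℝ, η 0 = 0 ∧ ∀ t, 0 ≤ t →
      (gradF w B (η t) = fun j => ∑ i, ((Real.exp t - 1) * x i + w i) * B i j) ∧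
      HasDerivWithinAt η (η' t) (Ici 0) t ∧
      gradJ w B (η t) (η' t) = fun j => ∑ i, Real.exp t * x i * B i j := by
  have hpos : ∀ t, 0 ≤ t → ∀ i, 0 < (Real.exp t - 1) * x i + w i := by
    intro t ht i
    have h1 : 0 ≤ (Real.exp t - 1) * x i := by
      apply mul_nonneg _ (hx i)
      have := Real.add_one_le_exp t
      linarith
    linarith [hw i]
  have hex : ∀ t, 0 ≤ t → ∃ η, gradF w B η = fun j => ∑ i, ((Real.exp t - 1) * x i + w i) * B i j :=
    fun t ht => exists_gradF_eq w _ hw (hpos t ht) B hB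
  classical
  set η : ℝ → Fin d → ℝ := fun t => if ht : 0 ≤ t then (hex t ht).choose else 0 with hηdef
  have hη : ∀ t, 0 ≤ t → gradF w B (η t) =
      fun j => ∑ i, ((Real.exp t - 1) * x i + w i) * B i j := by
    intro t ht
    simp only [hηdef, dif_pos ht]
    exact (hex t ht).choose_spec
  set J : ℝ → ((Fin d → ℝ) ≃L[ℝ] (Fin d → ℝ)) := fun t =>
    (LinearEquiv.ofInjectiveEndo (gradJ w B (η t) : (Fin d → ℝ) →ₗ[ℝ] (Fin d → ℝ))
      (gradJ_injective w hw B hB (η t))).toContinuousLinearEquiv with hJ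
  have hJcoe : ∀ t, ((J t : (Fin d → ℝ) ≃L[ℝ] (Fin d → ℝ)) : (Fin d → ℝ) →L[ℝ] (Fin d → ℝ)) =
      gradJ w B (η t) := by
    intro t
    ext v j
    simp [hJ]
  set r : ℝ → Fin d → ℝ := fun t => fun j => ∑ i, ((Real.exp t - 1) * x i + w i) * B i j with hr
  set r' : ℝ → Fin d → ℝ := fun t => fun j => ∑ i, Real.exp t * x i * B i j with hr'
  have hrd : ∀ t, HasDerivAt r (r' t) t := by
    intro t
    rw [hasDerivAt_pi]
    intro j
    simp only [hr, hr']
    refine HasDerivAt.fun_sum fun i _ => ?_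
    have := ((((Real.hasDerivAt_exp t).sub_const 1).mul_const (x i)).add_const (w i)).mul_const
      (B i j)
    exact this
  refine ⟨η, fun t => (J t).symm (r' t), ?_, ?_⟩
  · apply gradF_injective w hw B hB
    rw [hη 0 le_rfl]
    funext j
    simp [gradF]
  · intro t ht
    refine ⟨hη t ht, ?_, ?_⟩
    · have hs : HasStrictFDerivAt (gradF w B) ((J t : (Fin d → ℝ) ≃L[ℝ] (Fin d → ℝ)) :
          (Fin d → ℝ) →L[ℝ] (Fin d → ℝ)) (η t) := by
        rw [hJcoe t]
        exact hasStrictFDerivAt_gradF w B (η t)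
      have hinv := hs.to_localInverse
      have hr1 : gradF w B (η t) = r t := hη t ht
      rw [hr1] at hinv
      have hcomp : HasDerivWithinAt (fun τ => hs.localInverse (gradF w B) (J t) (η t) (r τ))
          ((J t).symm (r' t)) (Ici 0) t := by
        exact hinv.hasFDerivAt.comp_hasDerivWithinAt t (hrd t).hasDerivWithinAt (s := Ici 0)
      have hev : ∀ᶠ τ in 𝓝[Ici 0] t,
          η τ = hs.localInverse (gradF w B) (J t) (η t) (r τ) := by
        have h1 : ∀ᶠ y in 𝓝 (gradF w B (η t)),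
            gradF w B (hs.localInverse (gradF w B) (J t) (η t) y) = y :=
          hs.eventually_right_inverse
        rw [hr1] at h1
        have h2 : Tendsto r (𝓝[Ici 0] t) (𝓝 (r t)) :=
          (hrd t).continuousAt.tendsto.mono_left nhdsWithin_le_nhds
        filter_upwards [h2.eventually h1, self_mem_nhdsWithin] with τ h3 h4
        apply gradF_injective w hw B hB
        rw [h3, hη τ h4]
      refine hcomp.congr_of_eventuallyEq hev ?_
      exact (hev.self_of_nhdsWithin ht)
    · have := ContinuousLinearEquiv.apply_symm_apply (J t) (r' t)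
      have h2 : (gradJ w B (η t)) ((J t).symm (r' t)) = r' t := by
        rw [← hJcoe t]
        exact this
      exact h2

/-- The linear programming flow. -/
theorem exists_flow (V : Submodule ℝ (Fin n → ℝ)) (w x : Fin n → ℝ) (hw : ∀ i, 0 < w i)
    (hx : ∀ i, 0 ≤ x i) :
    ∃ s s' : ℝ → Fin n → ℝ, s 0 = 0 ∧ ∀ t, 0 ≤ t → s t ∈ V ∧ s' t ∈ V ∧
      (∀ i, HasDerivWithinAt (fun τ => s τ i) (s' t i) (Ici 0) t) ∧
      (∀ v ∈ V, ∑ i, w i * Real.exp (-t + s t i) * v i =
        ∑ i, ((1 - Real.exp (-t)) * x i + Real.exp (-t) * w i) * v i) ∧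
      (∀ v ∈ V, ∑ i, w i * Real.exp (-t + s t i) * s' t i * v i = ∑ i, x i * v i) := by
  set b := Module.finBasis ℝ V with hb
  set L : (Fin (Module.finrank ℝ V) → ℝ) →ₗ[ℝ] (Fin n → ℝ) :=
    V.subtype.comp (b.equivFun.symm : (Fin (Module.finrank ℝ V) → ℝ) →ₗ[ℝ] V) with hL
  set B : Matrix (Fin n) (Fin (Module.finrank ℝ V)) ℝ := LinearMap.toMatrix' L with hBdef
  have hBL : ∀ η, B.mulVec η = L η := fun η => LinearMap.toMatrix'_mulVec L η
  have hB : Function.Injective B.mulVec := by
    intro η ζ h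
    rw [hBL, hBL] at h
    have h2 : b.equivFun.symm η = b.equivFun.symm ζ := by
      apply Subtype.ext
      simpa [hL] using h
    exact b.equivFun.symm.injective h2
  have hmem : ∀ η, B.mulVec η ∈ V := by
    intro η
    rw [hBL]
    exact (b.equivFun.symm η).2
  have hsurj : ∀ v ∈ V, ∃ η, B.mulVec η = v := by
    intro v hv
    refine ⟨b.equivFun ⟨v, hv⟩, ?_⟩
    rw [hBL]
    simp only [hL, LinearMap.comp_apply, LinearEquiv.coe_coe, LinearEquiv.symm_apply_apply,
      Submodule.subtype_apply]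
  have key : ∀ (u : Fin n → ℝ) (ζ : Fin (Module.finrank ℝ V) → ℝ),
      ∑ i, u i * (B.mulVec ζ) i = ∑ j, (∑ i, u i * B i j) * ζ j := by
    intro u ζ
    simp only [Matrix.mulVec, dotProduct, Finset.mul_sum, Finset.sum_mul]
    rw [Finset.sum_comm]
    exact Finset.sum_congr rfl fun j _ => Finset.sum_congr rfl fun i _ => by ring
  obtain ⟨η, η', h0, hη⟩ := exists_curve w x hw hx B hB
  refine ⟨fun t => B.mulVec (η t), fun t => B.mulVec (η' t), ?_, ?_⟩
  · simp [h0]
  · intro t ht
    obtain ⟨h1, h2, h3⟩ := hη t ht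
    refine ⟨hmem _, hmem _, ?_, ?_, ?_⟩
    · intro i
      have hlin : HasFDerivAt (fun ζ : Fin (Module.finrank ℝ V) → ℝ => (B.mulVec ζ) i)
        ((ContinuousLinearMap.proj i : (Fin n → ℝ) →L[ℝ] ℝ).comp
          (LinearMap.toContinuousLinearMap B.mulVecLin)) (η t) :=
        ((ContinuousLinearMap.proj i : (Fin n → ℝ) →L[ℝ] ℝ).comp
          (LinearMap.toContinuousLinearMap B.mulVecLin)).hasFDerivAt
      exact hlin.comp_hasDerivWithinAt t h2
    · intro v hv
      obtain ⟨ζ, rfl⟩ := hsurj v hv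
      rw [key, key]
      refine Finset.sum_congr rfl fun j _ => ?_
      congr 1
      have h4 := congrFun h1 j
      simp only [gradF] at h4
      have h5 : ∑ i, w i * Real.exp (-t + (B.mulVec (η t)) i) * B i j =
          Real.exp (-t) * ∑ i, w i * Real.exp ((B.mulVec (η t)) i) * B i j := by
        rw [Finset.mul_sum]
        refine Finset.sum_congr rfl fun i _ => ?_
        rw [Real.exp_add]
        ring
      rw [h5, h4, Finset.mul_sum]
      refine Finset.sum_congr rfl fun i _ => ?_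
      have h6 : Real.exp (-t) * Real.exp t = 1 := by rw [← Real.exp_add]; simp
      linear_combination (x i * B i j) * h6
    · intro v hv
      obtain ⟨ζ, rfl⟩ := hsurj v hv
      rw [key, key]
      refine Finset.sum_congr rfl fun j _ => ?_
      congr 1
      have h4 := congrFun h3 j
      rw [gradJ_apply] at h4
      have h5 : ∑ i, w i * Real.exp (-t + (B.mulVec (η t)) i) * (B.mulVec (η' t)) i * B i j =
          Real.exp (-t) * ∑ i, (w i * Real.exp ((B.mulVec (η t)) i) * B i j) *
            (B.mulVec (η' t)) i := by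
        rw [Finset.mul_sum]
        refine Finset.sum_congr rfl fun i _ => ?_
        rw [Real.exp_add]
        ring
      rw [h5, h4, Finset.mul_sum]
      refine Finset.sum_congr rfl fun i _ => ?_
      have h6 : Real.exp (-t) * Real.exp t = 1 := by rw [← Real.exp_add]; simp
      linear_combination (x i * B i j) * h6

end Pool.Agent.Lib.MP_e757b3_an_h48
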